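import Mathlib
import Pool.Agent.H4.Om1

set_option autoImplicit false
set_option maxHeartbeats 400000

open Filter Topology TopologicalSpace

namespace Pool.Agent.Results.MP_1d57ab_an.NotHereditary

/-- visit set -/
def Vis {X : Type} (T : X → X) (x : X) (V : Set X) : Set ℕ := {n | T^[n] x ∈ V}

/-- Furstenberg family -/
def Furst (F : Set (Set ℕ)) : Prop := (∀ A ∈ F, A.Nonempty) ∧ ∀ A ∈ F, ∀ B, A ⊆ B → B ∈ F

/-- `F`-hypercyclic -/
def HC {X : Type} [TopologicalSpace X] (F : Set (Set ℕ)) (T : X → X) : Prop :=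
  ∃ x, ∀ V, IsOpen V → V.Nonempty → Vis T x V ∈ F

/-- hereditarily `F`-hypercyclic -/
def HHC {X : Type} [TopologicalSpace X] (F : Set (Set ℕ)) (T : X → X) : Prop :=
  ∀ (I : Type) [Countable I] (V : I → Set X) (A : I → Set ℕ),
    (∀ i, IsOpen (V i) ∧ (V i).Nonempty ∧ A i ∈ F) → ∃ x, ∀ i, Vis T x (V i) ∩ A i ∈ F

/-- infinite-dimensional Polish topological vector space -/
def Sp (X : Type) [AddCommGroup X] [Module ℂ X] [TopologicalSpace X] : Prop :=
  IsTopologicalAddGroup X ∧ ContinuousSMul ℂ X ∧ PolishSpace X ∧ ¬ FiniteDimensional ℂ X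

/-- `S ⊕ T` is `F`-hypercyclic for every `F`-hypercyclic operator `S` on any space -/
def AllSums {X : Type} [TopologicalSpace X] (F : Set (Set ℕ)) (T : X → X) : Prop :=
  ∀ (Y : Type) [AddCommGroup Y] [Module ℂ Y] [TopologicalSpace Y] (S : Y →L[ℂ] Y),
    Sp Y → HC F S → HC F (Prod.map S T)

open Pool.Agent.H4.Om

theorem baire (I : Type) [Countable I] (V : I → Set X) (A : I → Set ℕ)
    (h : ∀ i, IsOpen (V i) ∧ (V i).Nonempty ∧ (A i).Infinite) :
    ∃ x, ∀ i, (Vis (T 0) x (V i) ∩ A i).Infinite := by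
  obtain ⟨x, hx⟩ := (dense_iInter_of_isOpen (f := fun p : I × ℕ =>
    ⋃ n ∈ A p.1 ∩ Set.Ioi p.2, (T 0 ^ n) ⁻¹' V p.1)
    (fun p => isOpen_biUnion fun n _ => (h p.1).1.preimage (T 0 ^ n).continuous) fun p =>
      dense_iff_inter_open.2 fun U hU hne => by
        obtain ⟨N, hN⟩ := mixing 0 U _ hU (h p.1).1 hne (h p.1).2.1
        obtain ⟨n, h1, h2⟩ := (h p.1).2.2.exists_gt (N + p.2)
        obtain ⟨w, h3, h4⟩ := hN n (by omega)
        exact ⟨w, h4, Set.mem_biUnion (x := n) ⟨h1, show p.2 < n by omega⟩ h3⟩).nonempty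
  refine ⟨x, fun i => Set.infinite_of_forall_exists_gt fun m => ?_⟩
  obtain ⟨n, h1, h2⟩ := Set.mem_iUnion₂.1 (Set.mem_iInter.1 hx (i, m))
  exact ⟨n, ⟨by rwa [Set.mem_preimage, ContinuousLinearMap.coe_pow'] at h2, h1.1⟩, h1.2⟩

theorem two {A B : Set ℕ} (h : Disjoint A B) (h1 : ({n | Even n} \ A).Finite)
    (h2 : ({n | Even n} \ B).Finite) : False :=
  Set.infinite_of_forall_exists_gt (s := {n | Even n}) (fun m => ⟨2 * m + 2, by simp [parity_simps],
    by omega⟩) ((h1.union h2).subset fun n hn => by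
      by_cases a : n ∈ A
      · exact Or.inr ⟨hn, Set.disjoint_left.1 h a⟩
      · exact Or.inl ⟨hn, a⟩)

theorem result : ∃ (F : Set (Set ℕ)) (X : Type) (_ : AddCommGroup X) (_ : Module ℂ X)
    (_ : TopologicalSpace X) (T : X →L[ℂ] X), Sp X ∧ Furst F ∧ (∀ A ∈ F, A.Infinite) ∧
    (∀ A ∈ F, ∀ B : Set ℕ, (A \ B).Finite → B ∈ F) ∧ HC F T ∧ AllSums F T ∧ ¬ HHC F T := by
  let F : Set (Set ℕ) := {A | (A ∩ {n | Odd n}).Infinite ∨ ({n | Even n} \ A).Finite}
  have h1 : ∀ A ∈ F, A.Infinite := by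
    rintro A (h | h) hA
    · exact h (hA.inter_of_left _)
    · exact two (B := Aᶜ) disjoint_compl_right h (hA.subset fun n hn => not_not.1 hn.2)
  have h2 : ∀ A ∈ F, ∀ B : Set ℕ, (A \ B).Finite → B ∈ F := by
    rintro A (h | h) B hB
    · refine Or.inl fun h3 => h ((h3.union hB).subset fun n hn => ?_)
      by_cases a : n ∈ B
      · exact Or.inl ⟨a, hn.2⟩
      · exact Or.inr ⟨hn.1, a⟩
    · refine Or.inr ((h.union hB).subset fun n hn => ?_)
      by_cases a : n ∈ A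
      · exact Or.inr ⟨a, hn.2⟩
      · exact Or.inl ⟨hn.1, a⟩
  refine ⟨F, X, inferInstance, inferInstance, inferInstance, T 0,
    ⟨inferInstance, inferInstance, inferInstance, fun h => ?_⟩,
    ⟨fun A hA => (h1 A hA).nonempty, fun A hA B h => h2 A hA B (by simp [Set.diff_eq_empty.2 h])⟩,
    h1, h2, ?_, ?_, fun h => ?_⟩
  · exact not_finite_iff_infinite.2 inferInstance
      (Pi.linearIndependent_single_one ℤ ℂ).finite
  · obtain ⟨x, hx⟩ := baire (countableBasis X) (fun i => i.1) (fun _ => {n | Odd n}) fun i =>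
      ⟨isOpen_of_mem_countableBasis i.2, nonempty_of_mem_countableBasis i.2,
        Set.infinite_of_forall_exists_gt fun m => ⟨2 * m + 1, by simp, by omega⟩⟩
    refine ⟨x, fun V hV ⟨v, hv⟩ => Or.inl ?_⟩
    obtain ⟨U, h3, -, h4⟩ := (isBasis_countableBasis X).exists_subset_of_mem_open hv hV
    exact (hx ⟨U, h3⟩).mono fun n hn => ⟨h4 hn.1, hn.2⟩
  · rintro Y _ _ _ S ⟨_, _, _, hY⟩ ⟨y, hy⟩
    have : Nontrivial Y := not_subsingleton_iff_nontrivial.1 fun _ => hY inferInstance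
    have key : ∀ V, IsOpen V → V.Nonempty → (Vis S y V ∩ {n | Odd n}).Infinite := by
      rintro V hV ⟨v, hv⟩ hf
      have := Module.punctured_nhds_neBot ℂ Y v
      obtain ⟨w, h3, h4⟩ := nonempty_of_mem (inter_mem (mem_nhdsWithin_of_mem_nhds (hV.mem_nhds hv))
        (self_mem_nhdsWithin (s := {v}ᶜ)))
      obtain ⟨P, Q, p1, q1, p2, q2, h5⟩ := t2_separation (show w ≠ v from h4)
      refine two (A := Vis S y (V ∩ P)) (B := Vis S y (V ∩ Q))
        (Set.disjoint_left.2 fun n a b => Set.disjoint_left.1 h5 a.2 b.2)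
        ((hy _ (hV.inter p1) ⟨w, h3, p2⟩).resolve_left fun h => h (hf.subset fun n hn => ⟨hn.1.1, hn.2⟩))
        ((hy _ (hV.inter q1) ⟨v, hv, q2⟩).resolve_left fun h => h (hf.subset fun n hn => ⟨hn.1.1, hn.2⟩))
    obtain ⟨x, hx⟩ := baire (countableBasis Y × countableBasis X) (fun i => i.2.1)
      (fun i => Vis S y i.1.1 ∩ {n | Odd n}) fun i =>
      ⟨isOpen_of_mem_countableBasis i.2.2, nonempty_of_mem_countableBasis i.2.2,
        key _ (isOpen_of_mem_countableBasis i.1.2) (nonempty_of_mem_countableBasis i.1.2)⟩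
    refine ⟨(y, x), fun W hW ⟨v, hv⟩ => Or.inl ?_⟩
    obtain ⟨_, ⟨V, a, U, b, rfl⟩, -, h4⟩ := ((isBasis_countableBasis Y).prod
      (isBasis_countableBasis X)).exists_subset_of_mem_open hv hW
    refine (hx (⟨V, a⟩, ⟨U, b⟩)).mono fun n hn => ⟨h4 ?_, hn.2.2⟩
    rw [Prod.map_iterate]
    exact ⟨hn.2.1, hn.1⟩
  · obtain ⟨P, Q, p1, q1, p2, q2, h5⟩ := t2_separation (zero_ne_one (α := X))
    obtain ⟨x, hx⟩ := h Bool (fun b => cond b P Q) (fun _ => {n | Even n}) fun b => by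
      cases b
      · exact ⟨q1, ⟨_, q2⟩, Or.inr (by simp)⟩
      · exact ⟨p1, ⟨_, p2⟩, Or.inr (by simp)⟩
    have h6 : ∀ b, ({n | Even n} \ (Vis (T 0) x (cond b P Q) ∩ {n | Even n})).Finite := fun b =>
      (hx b).resolve_left fun h => h (Set.finite_empty.subset fun n hn =>
        Nat.not_even_iff_odd.2 hn.2 hn.1.2)
    exact two (Set.disjoint_left.2 fun n a b => Set.disjoint_left.1 h5 a.1 b.1) (h6 true) (h6 false)

end Pool.Agent.Results.MP_1d57ab_an.NotHereditary
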